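import Mathlib

/-! Finite groups with cyclic Sylow `2`-subgroups: a normal `2`-complement and at most one non-trivial
homomorphism to `{1, -1}`. -/

set_option autoImplicit false

namespace Pool.Agent.H.MP_ac3185_nt.KT

/-- A homomorphism to `{1, -1}` is trivial on the elements of odd order. -/
theorem hom_units_odd {G : Type*} [Group G] (e : G →* ℤˣ) {g : G} {n : ℕ} (hn : Odd n)
    (hg : g ^ n = 1) : e g = 1 := by
  rcases Int.units_eq_one_or (e g) with h | h
  · exact h
  · exfalso
    have h1 : e g ^ n = 1 := by rw [← map_pow, hg, map_one]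
    rw [h, Odd.neg_one_pow hn] at h1
    exact absurd h1 (by decide)

/-- Let the Sylow `2`-subgroups of the finite group `G` be cyclic. Then `G` has a normal
`2`-complement, and there is at most one non-trivial homomorphism of `G` to `{1, -1}`. -/
theorem cyc_two {G : Type*} [Group G] [Finite G] (h : ∀ P : Sylow 2 G, IsCyclic P) :
    (∃ N : Subgroup G, ∃ _ : N.Normal, Odd (Nat.card N) ∧ IsPGroup 2 (G ⧸ N)) ∧
      ∀ e e' : G →* ℤˣ, e ≠ 1 → e' ≠ 1 → e = e' := by
  by_cases hodd : Odd (Nat.card G)
  · refine ⟨⟨⊤, inferInstance, ?_, ?_⟩, ?_⟩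
    · rwa [Subgroup.card_top]
    · intro g
      exact ⟨0, by
        rw [pow_zero, pow_one]
        obtain ⟨x, rfl⟩ := QuotientGroup.mk_surjective g
        exact (QuotientGroup.eq_one_iff x).2 (Subgroup.mem_top x)⟩
    · intro e e' he _
      exact absurd (MonoidHom.ext fun g => hom_units_odd e hodd (pow_card_eq_one' (x := g))) he
  · rw [Nat.not_odd_iff_even] at hodd
    have hmin : (Nat.card G).minFac = 2 := (Nat.minFac_eq_two_iff _).2 hodd.two_dvd
    obtain ⟨P⟩ : Nonempty (Sylow 2 G) := inferInstance
    have hP : IsCyclic P := h P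
    have hle := hP.normalizer_le_centralizer hmin
    obtain ⟨N, hN⟩ : ∃ N : Subgroup G, N = (MonoidHom.transferSylow P hle).ker := ⟨_, rfl⟩
    have hNn : N.Normal := hN ▸ MonoidHom.normal_ker _
    have hc : N.IsComplement' P := hN ▸ hP.isComplement' hmin
    have hNo : Odd (Nat.card N) := by
      rw [← Nat.not_even_iff_odd, even_iff_two_dvd, hN]
      exact MonoidHom.not_dvd_card_ker_transferSylow P hle
    have htop : N ⊔ (P : Subgroup G) = ⊤ := hc.sup_eq_top
    have hNe : ∀ (e : G →* ℤˣ), ∀ g ∈ N, e g = 1 := by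
      intro e g hg
      refine hom_units_odd e hNo ?_
      have h1 := pow_card_eq_one' (x := (⟨g, hg⟩ : N))
      exact congrArg Subtype.val h1
    obtain ⟨z, hz⟩ := hP.exists_generator
    have hPe : ∀ (e e' : G →* ℤˣ), e (z : G) = e' (z : G) → e = e' := by
      intro e e' hee
      have h1 : N ⊔ (P : Subgroup G) ≤ e.eqLocus e' := by
        refine sup_le ?_ ?_
        · intro g hg
          change e g = e' g
          rw [hNe e g hg, hNe e' g hg]
        · intro g hg
          obtain ⟨k, hk⟩ := Subgroup.mem_zpowers_iff.1 (hz ⟨g, hg⟩)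
          have h2 : (z : G) ^ k = g := congrArg Subtype.val hk
          change e g = e' g
          rw [← h2, map_zpow, map_zpow, hee]
      rw [htop] at h1
      exact MonoidHom.ext fun g => h1 (Subgroup.mem_top g)
    have hneg : ∀ e : G →* ℤˣ, e ≠ 1 → e (z : G) = -1 := by
      intro e he
      rcases Int.units_eq_one_or (e (z : G)) with h1 | h1
      · exact absurd (hPe e 1 (by rw [h1, MonoidHom.one_apply])) he
      · exact h1
    refine ⟨⟨N, hNn, hNo, ?_⟩, fun e e' he he' => hPe e e' ?_⟩
    · obtain ⟨k, hk⟩ := P.2.exists_card_eq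
      refine IsPGroup.of_card (n := k) ?_
      rw [← Subgroup.index_eq_card, hc.symm.index_eq_card, hk]
    · rw [hneg e he, hneg e' he']

end Pool.Agent.H.MP_ac3185_nt.KT
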